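import Mathlib

set_option autoImplicit false

namespace Pool.Agent.Results.MP_0aa9c3_an.DiffConv

open Set Filter Topology

theorem aux (T : ℝ → ℝ) (hT : ∀ x y, |T x - T y| ≤ |x - y|) (w : ℝ) (hw : 0 < w)
    (h1 : ∀ x, w ≤ T x - x) (x y : ℝ) :
    ∃ l, Tendsto (fun n => T^[n] x - T^[n] y) atTop (𝓝 l) := by
  have hanti : Antitone fun x => T x - x := fun a b hab => by
    have := (abs_le.1 ((hT b a).trans (abs_of_nonneg (sub_nonneg.2 hab)).le)).2
    simp only
    linarith
  obtain ⟨c, hc⟩ : ∃ c, Tendsto (fun x => T x - x) atTop (𝓝 c) :=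
    ⟨_, tendsto_atTop_ciInf hanti ⟨w, by rintro _ ⟨z, rfl⟩; exact h1 z⟩⟩
  have horb : ∀ z, Tendsto (fun n => T^[n] z) atTop atTop := by
    intro z
    have h2 : ∀ n : ℕ, z + n * w ≤ T^[n] z := by
      intro n
      induction n with
      | zero => simp
      | succ n ih =>
        rw [Function.iterate_succ_apply']
        push_cast
        linarith [h1 (T^[n] z)]
    exact tendsto_atTop_mono h2 (tendsto_atTop_add_const_left _ _
      (tendsto_natCast_atTop_atTop.atTop_mul_const hw))
  set d : ℕ → ℝ := fun n => T^[n] x - T^[n] y with hd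
  have hstep : Tendsto (fun n => d (n + 1) - d n) atTop (𝓝 0) := by
    have := (hc.comp (horb x)).sub (hc.comp (horb y))
    rw [sub_self] at this
    refine this.congr fun n => ?_
    simp only [hd, Function.comp, Function.iterate_succ_apply']
    ring
  have habs : Antitone fun n => |d n| := antitone_nat_of_succ_le fun n => by
    simpa only [hd, Function.iterate_succ_apply'] using hT _ _
  have hbdd : BddBelow (range fun n => |d n|) := ⟨0, by rintro _ ⟨n, rfl⟩; exact abs_nonneg _⟩
  have hlim := tendsto_atTop_ciInf habs hbdd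
  have hle : ∀ n, (⨅ n, |d n|) ≤ |d n| := fun n => ciInf_le hbdd n
  set δ := ⨅ n, |d n|
  rcases (le_ciInf fun n => abs_nonneg (d n) : 0 ≤ δ).eq_or_lt with h | h
  · exact ⟨0, tendsto_zero_iff_abs_tendsto_zero _ |>.2 (h ▸ hlim)⟩
  · obtain ⟨N, hN⟩ := eventually_atTop.1 (hstep.eventually (Ioo_mem_nhds (neg_lt_zero.2 h) h))
    rcases le_total 0 (d N) with h0 | h0
    · have : ∀ n, N ≤ n → 0 ≤ d n := by
        intro n hn
        induction n, hn using Nat.le_induction with
        | base => exact h0
        | succ n hn ih =>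
          have h3 := hle n
          rw [abs_of_nonneg ih] at h3
          linarith [(hN n hn).1]
      exact ⟨δ, hlim.congr' ((eventually_ge_atTop N).mono fun n hn => abs_of_nonneg (this n hn))⟩
    · have : ∀ n, N ≤ n → d n ≤ 0 := by
        intro n hn
        induction n, hn using Nat.le_induction with
        | base => exact h0
        | succ n hn ih =>
          have h3 := hle n
          rw [abs_of_nonpos ih] at h3
          linarith [(hN n hn).2]
      exact ⟨-δ, hlim.neg.congr' ((eventually_ge_atTop N).mono fun n hn => by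
        simp [abs_of_nonpos (this n hn)])⟩

theorem result (T : ℝ → ℝ) (hT : ∀ x y, |T x - T y| ≤ |x - y|) (v : ℝ)
    (hv : v ∈ closure (range fun x => x - T x))
    (hmin : ∀ u ∈ closure (range fun x => x - T x), |v| ≤ |u|) (hv0 : v ≠ 0) (x y : ℝ) :
    ∃ l, Tendsto (fun n => T^[n] x - T^[n] y) atTop (𝓝 l) := by
  have hc : Continuous fun x => x - T x := continuous_id.sub
    (LipschitzWith.of_dist_le_mul (K := 1) fun a b => by simpa [Real.dist_eq] using hT a b).continuous
  have h1 : ∀ z, |v| ≤ |z - T z| := fun z => hmin _ (subset_closure ⟨z, rfl⟩)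
  have hp : 0 < |v| := abs_pos.2 hv0
  have h2 : ∀ a b, a - T a ≤ 0 → 0 ≤ b - T b → False := by
    intro a b ha hb
    obtain ⟨z, hz⟩ := intermediate_value_univ a b hc ⟨ha, hb⟩
    have := h1 z
    simp only at hz
    rw [hz, abs_zero] at this
    linarith
  rcases le_total (0 - T 0) 0 with h | h
  · refine aux T hT _ hp (fun z => ?_) x y
    have h3 := h1 z
    rw [abs_of_nonpos (le_of_not_ge fun h' => h2 0 z h h')] at h3
    linarith
  · obtain ⟨l, hl⟩ := aux (fun z => -T (-z)) (fun a b => by
      rw [neg_sub_neg, ← neg_sub_neg b a]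
      exact hT _ _) _ hp (fun z => by
        have h3 := h1 (-z)
        rw [abs_of_nonneg (le_of_not_ge fun h' => h2 (-z) 0 h' h)] at h3
        linarith) (-x) (-y)
    have h4 : ∀ n z, (fun z => -T (-z))^[n] (-z) = -T^[n] z := by
      intro n
      induction n with
      | zero => simp
      | succ n ih => intro z; rw [Function.iterate_succ_apply', Function.iterate_succ_apply', ih]; simp
    refine ⟨-l, hl.neg.congr fun n => ?_⟩
    rw [h4, h4]
    ring

end Pool.Agent.Results.MP_0aa9c3_an.DiffConv
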